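import Pool.Agent.TH412.EF.Moment

/-! The multiplication table problem for polynomials over a finite field. -/

set_option autoImplicit false
set_option linter.unusedSectionVars false

namespace Pool.Agent.TH412.EF

open Polynomial Finset Pool.Agent.H341R2.Sharp

variable {F : Type} [Field F] [Fintype F] [DecidableEq F]

/-- the products of two polynomials of degree less than `n` -/
noncomputable def PT (F : Type) [Field F] [Fintype F] [DecidableEq F] (n : ℕ) : Finset F[X] :=
  (V F n ×ˢ V F n).image (fun p => p.1 * p.2)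

theorem rn_pos (P : F[X]) : 0 < rn P := by
  unfold rn
  have := qpos (F := F)
  positivity

theorem rn_le (hq : 3 ≤ Fintype.card F) (P : F[X]) (hP : 1 ≤ P.natDegree) : rn P ≤ 1 / 3 := by
  unfold rn
  have h3 : (3 : ℝ) ≤ (Fintype.card F : ℝ) := by exact_mod_cast hq
  rw [one_div]
  apply inv_anti₀ (by norm_num)
  calc (3 : ℝ) ≤ (Fintype.card F : ℝ) := h3
    _ = (Fintype.card F : ℝ) ^ 1 := (pow_one _).symm
    _ ≤ (Fintype.card F : ℝ) ^ P.natDegree := pow_le_pow_right₀ (by linarith) hP

theorem coprime_of_mem {D : ℕ} {P Q : F[X]} (hP : P ∈ Irr F D) (hQ : Q ∈ Irr F D) (h : P ≠ Q) :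
    IsCoprime P Q := by
  rw [mem_Irr] at hP hQ
  rw [hP.2.1.coprime_iff_not_dvd]
  intro hd
  exact h (Polynomial.eq_of_monic_of_associated hP.1 hQ.1 (hP.2.1.associated_of_dvd hQ.2.1 hd))

theorem mul_mem_V {n : ℕ} (hn : 1 ≤ n) {f g : F[X]} (hf : f ∈ V F n) (hg : g ∈ V F n) :
    f * g ∈ V F (2 * n - 1) := by
  rw [mem_V] at *
  by_cases h : f * g = 0
  · rw [h, degree_zero]; exact WithBot.bot_lt_coe _
  · have hf0 : f ≠ 0 := left_ne_zero_of_mul h
    have hg0 : g ≠ 0 := right_ne_zero_of_mul h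
    rw [Polynomial.degree_mul, degree_eq_natDegree hf0, degree_eq_natDegree hg0, ← Nat.cast_add,
      Nat.cast_lt]
    rw [degree_eq_natDegree hf0, Nat.cast_lt] at hf
    rw [degree_eq_natDegree hg0, Nat.cast_lt] at hg
    omega

set_option maxHeartbeats 4000000 in
open scoped Classical in
theorem table (hq : 3 ≤ Fintype.card F) (D n : ℕ) (hn : 2 * D ≤ n) (hn1 : 1 ≤ n)
    (hL : 0 < LL F D) :
    ((PT F n).card : ℝ) ≤ 80 / LL F D * (Fintype.card F : ℝ) ^ (2 * n - 1) := by
  set L := LL F D with hLdef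
  set I := Irr F D with hI
  set q : ℝ := (Fintype.card F : ℝ) with hqd
  have hq3 : (3 : ℝ) ≤ q := by rw [hqd]; exact_mod_cast hq
  have hLs : L = ∑ P ∈ I, rn P := rfl
  set N : ℝ := ∑ P ∈ I, (1 : ℝ) with hN
  have hIdeg : ∀ P ∈ I, 1 ≤ P.natDegree := fun P hP => (mem_Irr.1 hP).2.1.natDegree_pos
  have hLN : 3 * L ≤ N := by
    rw [hLs, hN, Finset.mul_sum]
    apply Finset.sum_le_sum
    intro P hP
    have := rn_le hq P (hIdeg P hP)
    linarith
  -- statistics of one polynomial
  set S1 := V F (2 * n - 1) with hS1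
  let A1 : F[X] → F[X] → Prop := fun P h => ¬ P ∣ h
  have m1 := second_moment S1 I A1 (fun P => 1 - rn P)
    (by
      intro P hP
      have hP' := mem_Irr.1 hP
      convert card_ndvd (2 * n - 1) P hP'.1 (by omega))
    (by
      intro P hP Q hQ hPQ
      have hP' := mem_Irr.1 hP
      have hQ' := mem_Irr.1 hQ
      convert card_ndvd2 (2 * n - 1) P Q hP'.1 hQ'.1 (coprime_of_mem hP hQ hPQ) (by omega))
  have hM1 : ∑ P ∈ I, (1 - rn P) = N - L := by
    rw [Finset.sum_sub_distrib, ← hLs]
  rw [hM1] at m1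
  have hS1c : (S1.card : ℝ) = q ^ (2 * n - 1) := by
    rw [hS1, card_V]; push_cast; rfl
  set T1 := S1.filter (fun h => cnt I A1 h ≤ N - 5 / 4 * L) with hT1
  have c1 : (T1.card : ℝ) * (L / 4) ^ 2 ≤ L * S1.card := by
    apply cheb S1 (cnt I A1) (N - L) (L / 4) _ (by linarith) _ T1 (Finset.filter_subset _ _)
    · intro ω hω
      rw [hT1, mem_filter] at hω
      rw [le_abs]
      right
      linarith [hω.2]
    · rw [m1]
      apply mul_le_mul_of_nonneg_right _ (Nat.cast_nonneg _)
      rw [hLs]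
      apply Finset.sum_le_sum
      intro P hP
      have h1 := rn_pos P
      have h2 := rn_le hq P (hIdeg P hP)
      nlinarith
  -- statistics of a product
  set S2 := V F n ×ˢ V F n with hS2
  let A2 : F[X] → F[X] × F[X] → Prop := fun P w => ¬ P ∣ w.1 * w.2
  have hprime : ∀ P ∈ I, ∀ f g : F[X], (¬ P ∣ f * g) ↔ (¬ P ∣ f ∧ ¬ P ∣ g) := by
    intro P hP f g
    have hp : Prime P := (mem_Irr.1 hP).2.1.prime
    rw [hp.dvd_mul, not_or]
  have hS2c : (S2.card : ℝ) = (V F n).card * (V F n).card := by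
    rw [hS2, Finset.card_product]; push_cast; rfl
  have m2 := second_moment S2 I A2 (fun P => (1 - rn P) ^ 2)
    (by
      intro P hP
      have hP' := mem_Irr.1 hP
      have h1 := card_ndvd n P hP'.1 (by omega)
      have h2 : S2.filter (A2 P) = ((V F n).filter (fun f => ¬ P ∣ f)) ×ˢ
          ((V F n).filter (fun f => ¬ P ∣ f)) := by
        ext ⟨f, g⟩
        simp only [hS2, mem_filter, mem_product, A2, hprime P hP]
        tauto
      have h3 : ((S2.filter (A2 P)).card : ℝ) = (1 - rn P) ^ 2 * S2.card := by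
        rw [h2, Finset.card_product, hS2c]
        push_cast
        rw [h1]
        ring
      convert h3)
    (by
      intro P hP Q hQ hPQ
      have hP' := mem_Irr.1 hP
      have hQ' := mem_Irr.1 hQ
      have h1 := card_ndvd2 n P Q hP'.1 hQ'.1 (coprime_of_mem hP hQ hPQ) (by omega)
      have h2 : S2.filter (fun ω => A2 P ω ∧ A2 Q ω)
          = ((V F n).filter (fun f => ¬ P ∣ f ∧ ¬ Q ∣ f)) ×ˢ
          ((V F n).filter (fun f => ¬ P ∣ f ∧ ¬ Q ∣ f)) := by
        ext ⟨f, g⟩
        simp only [hS2, mem_filter, mem_product, A2, hprime P hP, hprime Q hQ]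
        tauto
      have h3 : ((S2.filter (fun ω => A2 P ω ∧ A2 Q ω)).card : ℝ)
          = (1 - rn P) ^ 2 * (1 - rn Q) ^ 2 * S2.card := by
        rw [h2, Finset.card_product, hS2c]
        push_cast
        rw [h1]
        ring
      convert h3)
  have hM2 : ∑ P ∈ I, (1 - rn P) ^ 2 ≤ N - 3 / 2 * L := by
    rw [hLs, hN, Finset.mul_sum, ← Finset.sum_sub_distrib]
    apply Finset.sum_le_sum
    intro P hP
    have h1 := rn_pos P
    have h2 := rn_le hq P (hIdeg P hP)
    nlinarith
  set T2 := S2.filter (fun w => N - 5 / 4 * L < cnt I A2 w) with hT2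
  have c2 : (T2.card : ℝ) * (L / 4) ^ 2 ≤ 2 * L * S2.card := by
    apply cheb S2 (cnt I A2) (∑ P ∈ I, (1 - rn P) ^ 2) (L / 4) _ (by linarith) _ T2
      (Finset.filter_subset _ _)
    · intro ω hω
      rw [hT2, mem_filter] at hω
      rw [le_abs]
      left
      linarith [hω.2, hM2]
    · rw [m2]
      apply mul_le_mul_of_nonneg_right _ (Nat.cast_nonneg _)
      rw [hLs, Finset.mul_sum]
      apply Finset.sum_le_sum
      intro P hP
      have h1 := rn_pos P
      have h2 := rn_le hq P (hIdeg P hP)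
      have h3 : 0 ≤ (1 - rn P) ^ 2 := sq_nonneg _
      have h4 : (1 - rn P) ^ 2 ≤ 1 := by nlinarith
      nlinarith
  -- the fibres of the product map
  set U2 := T2.image (fun w => w.1 * w.2) with hU2
  have hcard_units : (Finset.univ : Finset Fˣ).card = Fintype.card F - 1 := by
    rw [Finset.card_univ, Fintype.card_units]
  have c3 : (Fintype.card F - 1) * U2.card ≤ T2.card := by
    apply Finset.mul_card_image_le_card
    intro h hh
    obtain ⟨⟨f, g⟩, hfg, rfl⟩ := Finset.mem_image.1 hh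
    have hfg' := hfg
    rw [hT2, mem_filter, hS2, mem_product] at hfg
    obtain ⟨⟨hf, hg⟩, hc⟩ := hfg
    have hne : f * g ≠ 0 := by
      intro h0
      have : cnt I A2 (f, g) = 0 := by
        unfold cnt
        apply Finset.sum_eq_zero
        intro P _
        rw [if_neg]
        intro hA
        apply hA
        show P ∣ f * g
        rw [h0]
        exact dvd_zero _
      rw [this] at hc
      linarith
    have hf0 : f ≠ 0 := left_ne_zero_of_mul hne
    rw [← hcard_units]
    have hCC : ∀ u : Fˣ, (C (u : F) * f) * (C ((u⁻¹ : Fˣ) : F) * g) = f * g := by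
      intro u
      have : (C (u : F) : F[X]) * C ((u⁻¹ : Fˣ) : F) = 1 := by
        rw [← C_mul, Units.mul_inv, C_1]
      calc _ = (C (u : F) * C ((u⁻¹ : Fˣ) : F)) * (f * g) := by ring
        _ = f * g := by rw [this, one_mul]
    apply Finset.card_le_card_of_injOn (fun u : Fˣ => (C (u : F) * f, C ((u⁻¹ : Fˣ) : F) * g))
    · intro u _
      have e1 : ∀ (c : F) (k : F[X]), k ∈ V F n → C c * k ∈ V F n := by
        intro c k hk
        rw [mem_V] at *
        rw [← Polynomial.smul_eq_C_mul]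
        exact (Polynomial.degree_smul_le c k).trans_lt hk
      rw [Finset.mem_coe, Finset.mem_filter]
      refine ⟨?_, hCC u⟩
      rw [hT2, mem_filter, hS2, mem_product]
      refine ⟨⟨e1 _ _ hf, e1 _ _ hg⟩, ?_⟩
      have : cnt I A2 (C (u : F) * f, C ((u⁻¹ : Fˣ) : F) * g) = cnt I A2 (f, g) := by
        unfold cnt
        apply Finset.sum_congr rfl
        intro P _
        have hiff : A2 P (C (u : F) * f, C ((u⁻¹ : Fˣ) : F) * g) ↔ A2 P (f, g) := by
          show (¬ P ∣ (C (u : F) * f) * (C ((u⁻¹ : Fˣ) : F) * g)) ↔ ¬ P ∣ f * g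
          rw [hCC u]
        by_cases hA : A2 P (f, g)
        · rw [if_pos hA, if_pos (hiff.2 hA)]
        · rw [if_neg hA, if_neg (fun h => hA (hiff.1 h))]
      rw [this]
      exact hc
    · intro u _ v _ huv
      have h1 : C (u : F) * f = C (v : F) * f := (Prod.ext_iff.1 huv).1
      have h2 := mul_right_cancel₀ hf0 h1
      exact Units.ext (C_injective h2)
  have c3r : (q - 1) * U2.card ≤ T2.card := by
    have h1 : ((Fintype.card F - 1 : ℕ) : ℝ) = q - 1 := by
      rw [Nat.cast_sub (by omega)]; push_cast; rfl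
    rw [← h1]
    exact_mod_cast c3
  -- the covering
  have hcov : PT F n ⊆ T1 ∪ U2 := by
    intro h hh
    obtain ⟨⟨f, g⟩, hfg, rfl⟩ := Finset.mem_image.1 hh
    rw [mem_product] at hfg
    rw [mem_union]
    by_cases hc : cnt I A1 (f * g) ≤ N - 5 / 4 * L
    · left
      rw [hT1, mem_filter]
      exact ⟨mul_mem_V hn1 hfg.1 hfg.2, hc⟩
    · right
      rw [hU2, mem_image]
      refine ⟨(f, g), ?_, rfl⟩
      rw [hT2, mem_filter, hS2, mem_product]
      exact ⟨hfg, not_le.1 hc⟩
  have hfin : ((PT F n).card : ℝ) ≤ T1.card + U2.card := by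
    have := (Finset.card_le_card hcov).trans (Finset.card_union_le T1 U2)
    exact_mod_cast this
  have b1 : (T1.card : ℝ) ≤ 16 / L * q ^ (2 * n - 1) := by
    rw [hS1c] at c1
    rw [div_mul_eq_mul_div, le_div_iff₀ hL]
    have : L * ((T1.card : ℝ) * L) ≤ L * (16 * q ^ (2 * n - 1)) := by nlinarith
    exact le_of_mul_le_mul_left this hL
  have hS2q : (S2.card : ℝ) = q * q ^ (2 * n - 1) := by
    rw [hS2c, card_V]
    push_cast
    rw [← hqd, ← pow_succ', ← pow_add]
    congr 1
    omega
  have b2 : (T2.card : ℝ) ≤ 32 / L * (q * q ^ (2 * n - 1)) := by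
    rw [hS2q] at c2
    rw [div_mul_eq_mul_div, le_div_iff₀ hL]
    have : L * ((T2.card : ℝ) * L) ≤ L * (32 * (q * q ^ (2 * n - 1))) := by nlinarith
    exact le_of_mul_le_mul_left this hL
  have b3 : (U2.card : ℝ) ≤ 64 / L * q ^ (2 * n - 1) := by
    have hU0 : (0 : ℝ) ≤ U2.card := Nat.cast_nonneg _
    have h1 : q * U2.card ≤ q * (64 / L * q ^ (2 * n - 1)) := by
      calc q * (U2.card : ℝ) ≤ 2 * ((q - 1) * U2.card) := by nlinarith
        _ ≤ 2 * T2.card := by linarith
        _ ≤ 2 * (32 / L * (q * q ^ (2 * n - 1))) := by linarith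
        _ = q * (64 / L * q ^ (2 * n - 1)) := by ring
    exact le_of_mul_le_mul_left h1 (by linarith)
  calc ((PT F n).card : ℝ) ≤ 16 / L * q ^ (2 * n - 1) + 64 / L * q ^ (2 * n - 1) := by linarith
    _ = 80 / L * q ^ (2 * n - 1) := by ring

end Pool.Agent.TH412.EF
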