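import Pool.Agent.H435R3.Weil.LFun

/-! The sum of the reciprocals of the norms of the monic irreducible polynomials over a finite
field diverges. -/

set_option autoImplicit false

namespace Pool.Agent.TH412.EF

open Polynomial Finset Pool.Agent.H341R2.Sharp

set_option linter.unusedSectionVars false

variable {F : Type} [Field F] [Fintype F] [DecidableEq F]

theorem card_Mon (n : ℕ) : (Mon F n).card = Fintype.card F ^ n := by
  have h1 := Nat.card_congr (Polynomial.monicEquivDegreeLT (R := F) n)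
  have h2 := Nat.card_congr (Polynomial.degreeLTEquiv F n).toEquiv
  have h3 : (Mon F n).card = Nat.card {g : Polynomial F // g.Monic ∧ g.natDegree = n} := by
    rw [Nat.subtype_card (Mon F n)]
    intro x
    exact mem_Mon
  rw [h3, h1, h2, Nat.card_fun, Nat.card_eq_fintype_card (α := Fin n), Fintype.card_fin,
    Nat.card_eq_fintype_card]

/-- the sum of the degrees of the monic irreducible polynomials of degree dividing `m` -/
theorem sum_deg (m : ℕ) (hm : 1 ≤ m) :
    ∑ P ∈ (Irr F m).filter (fun P => P.natDegree ∣ m), P.natDegree = Fintype.card F ^ m := by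
  have key : ∀ n : ℕ, (n : ℂ) * (Fintype.card F : ℂ) ^ n =
      ∑ m ∈ Icc 1 n, (Fintype.card F : ℂ) ^ (n - m) *
        Pool.Agent.H435R3.Weil.TL (fun _ : F[X] => (1 : ℂ)) m := by
    intro n
    have h := Pool.Agent.H435R3.Weil.n_mul_AL (fun _ : F[X] => (1 : ℂ)) rfl
      (fun g h _ _ => by simp) n
    have hA : ∀ k : ℕ, Pool.Agent.H435R3.Weil.AL (fun _ : F[X] => (1 : ℂ)) k
        = (Fintype.card F : ℂ) ^ k := by
      intro k
      unfold Pool.Agent.H435R3.Weil.AL
      rw [Finset.sum_const, card_Mon]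
      simp
    simpa only [hA] using h
  have hTL : Pool.Agent.H435R3.Weil.TL (fun _ : F[X] => (1 : ℂ)) m = (Fintype.card F : ℂ) ^ m := by
    obtain ⟨n, rfl⟩ : ∃ n, m = n + 1 := ⟨m - 1, by omega⟩
    have h1 := key (n + 1)
    have h0 := key n
    rw [Finset.sum_Icc_succ_top (by omega)] at h1
    have h2 : ∑ k ∈ Icc 1 n, (Fintype.card F : ℂ) ^ (n + 1 - k) *
        Pool.Agent.H435R3.Weil.TL (fun _ : F[X] => (1 : ℂ)) k
        = (Fintype.card F : ℂ) * ((n : ℂ) * (Fintype.card F : ℂ) ^ n) := by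
      rw [h0, Finset.mul_sum]
      apply Finset.sum_congr rfl
      intro k hk
      rw [Finset.mem_Icc] at hk
      have : n + 1 - k = (n - k) + 1 := by omega
      rw [this, pow_succ]
      ring
    rw [h2] at h1
    simp only [Nat.sub_self, pow_zero, one_mul] at h1
    push_cast at h1
    linear_combination (-1 : ℂ) * h1
  unfold Pool.Agent.H435R3.Weil.TL at hTL
  simp only [one_pow, mul_one] at hTL
  exact_mod_cast hTL

/-- the monic irreducible polynomials of degree exactly `m` -/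
noncomputable def IrrE (F : Type) [Field F] [Fintype F] [DecidableEq F] (m : ℕ) : Finset F[X] :=
  (Irr F m).filter (fun P => P.natDegree = m)

theorem mem_IrrE {m : ℕ} {P : F[X]} :
    P ∈ IrrE F m ↔ P.Monic ∧ Irreducible P ∧ P.natDegree = m := by
  unfold IrrE
  rw [mem_filter, mem_Irr]
  constructor
  · rintro ⟨⟨h1, h2, _⟩, h3⟩; exact ⟨h1, h2, h3⟩
  · rintro ⟨h1, h2, h3⟩; exact ⟨⟨h1, h2, h3.le⟩, h3⟩

theorem IrrE_disj (s : Set ℕ) : s.PairwiseDisjoint (fun m => IrrE F m) := by
  intro a ha b hb hab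
  rw [Function.onFun, Finset.disjoint_left]
  intro P hP hP'
  rw [mem_IrrE] at hP hP'
  exact hab (hP.2.2.symm.trans hP'.2.2)

theorem card_IrrE_mul_le (m : ℕ) (hm : 1 ≤ m) : (IrrE F m).card * m ≤ Fintype.card F ^ m := by
  rw [← sum_deg (F := F) m hm]
  have h1 : (IrrE F m).card * m = ∑ P ∈ IrrE F m, P.natDegree := by
    rw [Finset.sum_congr rfl (fun P hP => (mem_IrrE.1 hP).2.2), Finset.sum_const, smul_eq_mul]
  rw [h1]
  apply Finset.sum_le_sum_of_subset
  intro P hP
  rw [mem_IrrE] at hP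
  rw [mem_filter, mem_Irr]
  exact ⟨⟨hP.1, hP.2.1, hP.2.2.le⟩, by rw [hP.2.2]⟩

theorem geom_le (q : ℕ) (hq : 3 ≤ q) (k : ℕ) : 2 * ∑ d ∈ Icc 1 k, q ^ d ≤ q ^ (k + 1) := by
  induction k with
  | zero => simp
  | succ k ih =>
    rw [Finset.sum_Icc_succ_top (by omega), mul_add]
    have : q ^ (k + 1 + 1) = q ^ (k + 1) * q := pow_succ _ _
    rw [this]
    have h2 : q ^ (k + 1) * 3 ≤ q ^ (k + 1) * q := Nat.mul_le_mul_left _ hq
    omega

/-- lower bound for the number of monic irreducible polynomials of degree `m` -/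
theorem card_IrrE_ge (hq : 3 ≤ Fintype.card F) (m : ℕ) (hm : 1 ≤ m) :
    Fintype.card F ^ m ≤ 2 * ((IrrE F m).card * m) := by
  set q := Fintype.card F with hqdef
  have h0 := sum_deg (F := F) m hm
  rw [← hqdef] at h0
  have h1 : (Irr F m).filter (fun P => P.natDegree ∣ m) ⊆
      IrrE F m ∪ (Icc 1 (m / 2)).biUnion (fun d => IrrE F d) := by
    intro P hP
    rw [mem_filter, mem_Irr] at hP
    obtain ⟨⟨hP1, hP2, hP3⟩, hP4⟩ := hP
    rw [mem_union]
    by_cases h : P.natDegree = m
    · left; exact mem_IrrE.2 ⟨hP1, hP2, h⟩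
    · right
      rw [mem_biUnion]
      have hpos := hP2.natDegree_pos
      refine ⟨P.natDegree, ?_, mem_IrrE.2 ⟨hP1, hP2, rfl⟩⟩
      rw [mem_Icc]
      refine ⟨hpos, ?_⟩
      obtain ⟨k, hk⟩ := hP4
      have hk2 : 2 ≤ k := by
        rcases Nat.lt_or_ge k 2 with h' | h'
        · interval_cases k
          · omega
          · omega
        · exact h'
      rw [Nat.le_div_iff_mul_le (by norm_num)]
      calc P.natDegree * 2 ≤ P.natDegree * k := Nat.mul_le_mul_left _ hk2
        _ = m := hk.symm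
  have h2 : q ^ m ≤ (IrrE F m).card * m + ∑ d ∈ Icc 1 (m / 2), (IrrE F d).card * d := by
    rw [← h0]
    calc _ ≤ ∑ P ∈ IrrE F m ∪ (Icc 1 (m / 2)).biUnion (fun d => IrrE F d), P.natDegree :=
          Finset.sum_le_sum_of_subset h1
      _ ≤ ∑ P ∈ IrrE F m, P.natDegree
          + ∑ P ∈ (Icc 1 (m / 2)).biUnion (fun d => IrrE F d), P.natDegree := by
          have := Finset.sum_union_inter (s₁ := IrrE F m)
            (s₂ := (Icc 1 (m / 2)).biUnion (fun d => IrrE F d)) (f := fun P => P.natDegree)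
          omega
      _ ≤ _ := by
          apply add_le_add
          · rw [Finset.sum_congr rfl (fun P hP => (mem_IrrE.1 hP).2.2), Finset.sum_const,
              smul_eq_mul]
          · rw [Finset.sum_biUnion (IrrE_disj _)]
            apply Finset.sum_le_sum
            intro d _
            rw [Finset.sum_congr rfl (fun P hP => (mem_IrrE.1 hP).2.2), Finset.sum_const,
              smul_eq_mul]
  have h3 : ∑ d ∈ Icc 1 (m / 2), (IrrE F d).card * d ≤ ∑ d ∈ Icc 1 (m / 2), q ^ d := by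
    apply Finset.sum_le_sum
    intro d hd
    rw [mem_Icc] at hd
    exact card_IrrE_mul_le d hd.1
  have h4 : 2 * ∑ d ∈ Icc 1 (m / 2), q ^ d ≤ q ^ m := by
    rcases Nat.lt_or_ge m 2 with h' | h'
    · have : m = 1 := by omega
      subst this
      simp
    · refine (geom_le q hq (m / 2)).trans (Nat.pow_le_pow_right (by omega) (by omega))
  omega

/-- The sum of the reciprocals of the norms. -/
noncomputable def LL (F : Type) [Field F] [Fintype F] [DecidableEq F] (D : ℕ) : ℝ :=
  ∑ P ∈ Irr F D, ((Fintype.card F : ℝ) ^ P.natDegree)⁻¹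

theorem LL_ge (hq : 3 ≤ Fintype.card F) (D : ℕ) :
    (1 / 2 : ℝ) * ∑ m ∈ Icc 1 D, (1 / (m : ℝ)) ≤ LL F D := by
  have hqpos : (0 : ℝ) < (Fintype.card F : ℝ) := by
    have : 0 < Fintype.card F := by omega
    exact_mod_cast this
  have h1 : Irr F D = (Icc 1 D).biUnion (fun m => IrrE F m) := by
    ext P
    rw [mem_Irr, mem_biUnion]
    constructor
    · rintro ⟨h1, h2, h3⟩
      exact ⟨P.natDegree, mem_Icc.2 ⟨h2.natDegree_pos, h3⟩, mem_IrrE.2 ⟨h1, h2, rfl⟩⟩
    · rintro ⟨m, hm, hP⟩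
      rw [mem_Icc] at hm
      rw [mem_IrrE] at hP
      exact ⟨hP.1, hP.2.1, by omega⟩
  unfold LL
  rw [h1, Finset.sum_biUnion]
  · rw [Finset.mul_sum]
    apply Finset.sum_le_sum
    intro m hm
    rw [mem_Icc] at hm
    have h2 : ∀ P ∈ IrrE F m, ((Fintype.card F : ℝ) ^ P.natDegree)⁻¹
        = ((Fintype.card F : ℝ) ^ m)⁻¹ := by
      intro P hP
      rw [(mem_IrrE.1 hP).2.2]
    rw [Finset.sum_congr rfl h2, Finset.sum_const, nsmul_eq_mul]
    have h3 := card_IrrE_ge hq m hm.1
    have h4 : ((Fintype.card F : ℝ)) ^ m ≤ 2 * (((IrrE F m).card : ℝ) * (m : ℝ)) := by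
      exact_mod_cast h3
    have hm0 : (0 : ℝ) < m := by exact_mod_cast hm.1
    have hqm : (0 : ℝ) < (Fintype.card F : ℝ) ^ m := by positivity
    rw [← div_eq_mul_inv, le_div_iff₀ hqm, div_mul_div_comm, div_mul_eq_mul_div,
      div_le_iff₀ (by positivity)]
    linarith
  · exact IrrE_disj _

theorem exists_LL_ge (hq : 3 ≤ Fintype.card F) (B : ℝ) : ∃ D : ℕ, B ≤ LL F D := by
  have h1 := Real.tendsto_sum_range_one_div_nat_succ_atTop
  obtain ⟨N, hN⟩ := (h1.eventually (Filter.eventually_ge_atTop (2 * B))).exists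
  refine ⟨N, le_trans ?_ (LL_ge hq N)⟩
  have h2 : ∑ m ∈ Icc 1 N, (1 / (m : ℝ)) = ∑ i ∈ range N, (1 : ℝ) / ((i : ℝ) + 1) := by
    clear hN
    induction N with
    | zero => simp
    | succ N ih =>
      rw [Finset.sum_Icc_succ_top (by omega), Finset.sum_range_succ, ih]
      push_cast
      rfl
  rw [h2]
  linarith

end Pool.Agent.TH412.EF
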