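import Pool.Agent.TH412.EF.IrrSum

/-! Divisibility statistics of random polynomials and products of random polynomials. -/

set_option autoImplicit false
set_option linter.unusedSectionVars false

namespace Pool.Agent.TH412.EF

open Polynomial Finset Pool.Agent.H341R2.Sharp

section moment

open scoped Classical in
/-- the number of indices whose event holds -/
noncomputable def cnt {Ω ι : Type} (I : Finset ι) (A : ι → Ω → Prop) (ω : Ω) : ℝ :=
  ∑ i ∈ I, (if A i ω then (1 : ℝ) else 0)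

open scoped Classical in
/-- the second moment of a sum of pairwise independent indicators -/
theorem second_moment {Ω ι : Type} (S : Finset Ω) (I : Finset ι) (A : ι → Ω → Prop) (μ : ι → ℝ)
    (h1 : ∀ i ∈ I, ((S.filter (A i)).card : ℝ) = μ i * S.card)
    (h2 : ∀ i ∈ I, ∀ j ∈ I, i ≠ j →
      ((S.filter (fun ω => A i ω ∧ A j ω)).card : ℝ) = μ i * μ j * S.card) :
    ∑ ω ∈ S, (cnt I A ω - ∑ i ∈ I, μ i) ^ 2 = (∑ i ∈ I, μ i * (1 - μ i)) * S.card := by
  have e1 : ∑ ω ∈ S, cnt I A ω = (∑ i ∈ I, μ i) * S.card := by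
    unfold cnt
    rw [Finset.sum_comm, Finset.sum_mul]
    apply Finset.sum_congr rfl
    intro i hi
    rw [← h1 i hi, Finset.card_filter]
    push_cast
    rfl
  have e2 : ∑ ω ∈ S, (cnt I A ω) ^ 2
      = (∑ i ∈ I, μ i * (1 - μ i)) * S.card + (∑ i ∈ I, μ i) ^ 2 * S.card := by
    have : ∀ ω ∈ S, (cnt I A ω) ^ 2
        = ∑ i ∈ I, ∑ j ∈ I, (if A i ω ∧ A j ω then (1 : ℝ) else 0) := by
      intro ω _
      unfold cnt
      rw [sq, Finset.sum_mul_sum]
      apply Finset.sum_congr rfl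
      intro i _
      apply Finset.sum_congr rfl
      intro j _
      by_cases ha : A i ω <;> by_cases hb : A j ω <;> simp [ha, hb]
    rw [Finset.sum_congr rfl this, Finset.sum_comm]
    have e3 : ∀ i ∈ I, ∑ ω ∈ S, ∑ j ∈ I, (if A i ω ∧ A j ω then (1 : ℝ) else 0)
        = μ i * (1 - μ i) * S.card + μ i * (∑ j ∈ I, μ j) * S.card := by
      intro i hi
      rw [Finset.sum_comm, ← Finset.add_sum_erase I _ hi]
      have e4 : ∑ ω ∈ S, (if A i ω ∧ A i ω then (1 : ℝ) else 0) = μ i * S.card := by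
        rw [← h1 i hi, Finset.card_filter]
        push_cast
        simp only [and_self]
      have e5 : ∑ j ∈ I.erase i, ∑ ω ∈ S, (if A i ω ∧ A j ω then (1 : ℝ) else 0)
          = ∑ j ∈ I.erase i, μ i * μ j * S.card := by
        apply Finset.sum_congr rfl
        intro j hj
        rw [Finset.mem_erase] at hj
        rw [← h2 i hi j hj.2 (Ne.symm hj.1), Finset.card_filter]
        push_cast
        rfl
      rw [e4, e5, ← Finset.add_sum_erase I μ hi]
      have e6 : ∑ j ∈ I.erase i, μ i * μ j * (S.card : ℝ)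
          = μ i * (∑ j ∈ I.erase i, μ j) * S.card := by
        rw [Finset.mul_sum, Finset.sum_mul]
      rw [e6]
      ring
    rw [Finset.sum_congr rfl e3, Finset.sum_add_distrib, ← Finset.sum_mul, ← Finset.sum_mul,
      ← Finset.sum_mul, sq]
  have e7 : ∀ ω ∈ S, (cnt I A ω - ∑ i ∈ I, μ i) ^ 2
      = (cnt I A ω) ^ 2 - 2 * (∑ i ∈ I, μ i) * cnt I A ω + (∑ i ∈ I, μ i) ^ 2 := by
    intro ω _; ring
  rw [Finset.sum_congr rfl e7, Finset.sum_add_distrib, Finset.sum_sub_distrib, e2,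
    ← Finset.mul_sum, e1, Finset.sum_const, nsmul_eq_mul]
  ring

open scoped Classical in
/-- Chebyshev's inequality -/
theorem cheb {Ω : Type} (S : Finset Ω) (X : Ω → ℝ) (M δ V : ℝ) (hδ : 0 < δ)
    (h : ∑ ω ∈ S, (X ω - M) ^ 2 ≤ V) (T : Finset Ω) (hT : T ⊆ S)
    (hd : ∀ ω ∈ T, δ ≤ |X ω - M|) : (T.card : ℝ) * δ ^ 2 ≤ V := by
  calc (T.card : ℝ) * δ ^ 2 = ∑ ω ∈ T, δ ^ 2 := by rw [Finset.sum_const, nsmul_eq_mul]
    _ ≤ ∑ ω ∈ T, (X ω - M) ^ 2 := by
        apply Finset.sum_le_sum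
        intro ω hω
        rw [← sq_abs (X ω - M)]
        exact pow_le_pow_left₀ hδ.le (hd ω hω) 2
    _ ≤ ∑ ω ∈ S, (X ω - M) ^ 2 :=
        Finset.sum_le_sum_of_subset_of_nonneg hT (fun _ _ _ => sq_nonneg _)
    _ ≤ V := h

end moment

variable (F : Type) [Field F] [Fintype F] [DecidableEq F]

theorem finite_V (n : ℕ) : {f : F[X] | f.degree < n}.Finite := by
  have h : Finite (Polynomial.degreeLT F n) :=
    Finite.of_equiv _ (Polynomial.degreeLTEquiv F n).toEquiv.symm
  refine (Set.toFinite ((Polynomial.degreeLT F n : Set F[X]))).subset ?_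
  intro f hf
  exact Polynomial.mem_degreeLT.2 hf

/-- the polynomials of degree less than `n` -/
noncomputable def V (n : ℕ) : Finset F[X] := (finite_V F n).toFinset

variable {F}

theorem mem_V {n : ℕ} {f : F[X]} : f ∈ V F n ↔ f.degree < n := by
  simp [V]

theorem card_V (n : ℕ) : (V F n).card = Fintype.card F ^ n := by
  have h2 := Nat.card_congr (Polynomial.degreeLTEquiv F n).toEquiv
  have h3 : (V F n).card = Nat.card (Polynomial.degreeLT F n) := by
    rw [Nat.subtype_card (V F n)]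
    intro x
    rw [mem_V]
    exact Polynomial.mem_degreeLT.symm
  rw [h3, h2, Nat.card_fun, Nat.card_eq_fintype_card (α := Fin n), Fintype.card_fin,
    Nat.card_eq_fintype_card]

open scoped Classical in
theorem card_dvd (n : ℕ) (Q : F[X]) (hQ : Q.Monic) (hn : Q.natDegree ≤ n) :
    ((V F n).filter (fun f => Q ∣ f)).card = Fintype.card F ^ (n - Q.natDegree) := by
  rw [← card_V]
  symm
  apply Finset.card_bij (fun g _ => Q * g)
  · intro g hg
    rw [mem_V] at hg
    rw [mem_filter, mem_V]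
    refine ⟨?_, dvd_mul_right _ _⟩
    by_cases h0 : g = 0
    · rw [h0, mul_zero, degree_zero]; exact WithBot.bot_lt_coe _
    · rw [Polynomial.degree_mul, degree_eq_natDegree h0]
      rw [degree_eq_natDegree h0, Nat.cast_lt] at hg
      rw [degree_eq_natDegree hQ.ne_zero, ← Nat.cast_add, Nat.cast_lt]
      omega
  · intro g _ g' _ h
    exact mul_left_cancel₀ hQ.ne_zero h
  · intro f hf
    rw [mem_filter, mem_V] at hf
    obtain ⟨hf, g, rfl⟩ := hf
    refine ⟨g, ?_, rfl⟩
    rw [mem_V]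
    by_cases h0 : g = 0
    · rw [h0, degree_zero]; exact WithBot.bot_lt_coe _
    · rw [Polynomial.degree_mul, degree_eq_natDegree h0, degree_eq_natDegree hQ.ne_zero,
        ← Nat.cast_add, Nat.cast_lt] at hf
      rw [degree_eq_natDegree h0, Nat.cast_lt]
      omega

/-- the reciprocal of the norm -/
noncomputable def rn (P : F[X]) : ℝ := ((Fintype.card F : ℝ) ^ P.natDegree)⁻¹

theorem qpos : (0 : ℝ) < (Fintype.card F : ℝ) := by
  have : 0 < Fintype.card F := Fintype.card_pos
  exact_mod_cast this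

open scoped Classical in
theorem card_dvd_real (n : ℕ) (Q : F[X]) (hQ : Q.Monic) (hn : Q.natDegree ≤ n) :
    (((V F n).filter (fun f => Q ∣ f)).card : ℝ) = rn Q * (V F n).card := by
  rw [card_dvd n Q hQ hn, card_V]
  unfold rn
  push_cast
  have hq := qpos (F := F)
  rw [pow_sub₀ _ hq.ne' hn]
  ring

open scoped Classical in
theorem card_ndvd (n : ℕ) (Q : F[X]) (hQ : Q.Monic) (hn : Q.natDegree ≤ n) :
    (((V F n).filter (fun f => ¬ Q ∣ f)).card : ℝ) = (1 - rn Q) * (V F n).card := by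
  have h := Finset.card_filter_add_card_filter_not (s := V F n) (fun f => Q ∣ f)
  have h' : (((V F n).filter (fun f => Q ∣ f)).card : ℝ)
      + (((V F n).filter (fun f => ¬ Q ∣ f)).card : ℝ) = (V F n).card := by exact_mod_cast h
  rw [card_dvd_real n Q hQ hn] at h'
  linarith

open scoped Classical in
theorem card_ndvd2 (n : ℕ) (P Q : F[X]) (hP : P.Monic) (hQ : Q.Monic) (hc : IsCoprime P Q)
    (hn : P.natDegree + Q.natDegree ≤ n) :
    (((V F n).filter (fun f => ¬ P ∣ f ∧ ¬ Q ∣ f)).card : ℝ)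
      = (1 - rn P) * (1 - rn Q) * (V F n).card := by
  have e : ∀ f : F[X], (if ¬ P ∣ f ∧ ¬ Q ∣ f then (1 : ℝ) else 0)
      = 1 - (if P ∣ f then 1 else 0) - (if Q ∣ f then 1 else 0) + (if P * Q ∣ f then 1 else 0) := by
    intro f
    have h : P * Q ∣ f ↔ P ∣ f ∧ Q ∣ f :=
      ⟨fun h => ⟨(dvd_mul_right _ _).trans h, (dvd_mul_left _ _).trans h⟩,
        fun h => hc.mul_dvd h.1 h.2⟩
    by_cases h1 : P ∣ f <;> by_cases h2 : Q ∣ f <;> simp [h, h1, h2]
  have hrn : rn (P * Q) = rn P * rn Q := by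
    unfold rn
    rw [hP.natDegree_mul hQ, pow_add, mul_inv]
  have h1 := card_dvd_real n P hP (by omega)
  have h2 := card_dvd_real n Q hQ (by omega)
  have h3 := card_dvd_real n (P * Q) (hP.mul hQ) (by rw [hP.natDegree_mul hQ]; exact hn)
  rw [Finset.card_filter] at h1 h2 h3 ⊢
  push_cast at h1 h2 h3 ⊢
  have h0 : ∑ f ∈ V F n, (1 : ℝ) = (V F n).card := by simp
  have : ∑ f ∈ V F n, (if ¬ P ∣ f ∧ ¬ Q ∣ f then (1 : ℝ) else 0)
      = (V F n).card - rn P * (V F n).card - rn Q * (V F n).card + rn (P * Q) * (V F n).card := by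
    rw [Finset.sum_congr rfl (fun f _ => e f), Finset.sum_add_distrib, Finset.sum_sub_distrib,
      Finset.sum_sub_distrib, h0, h1, h2, h3]
  rw [this, hrn]
  ring

end Pool.Agent.TH412.EF
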